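import Mathlib
import Pool.Agent.Helper4.QN.Defs
import Pool.Agent.Helper4.QN.St.Stubs

/-!
# Piece QN-2 of PROJECT QN (MP_882a21_co): the best list
-/

set_option autoImplicit false

namespace Pool.Agent.Helper51.QN

open scoped BigOperators RealInnerProductSpace Topology
open Pool.Agent.Helper4.QN
open Filter

theorem gm_apply {d n : ℕ} (w : Fin n → ℝ) (v : Fin n → EuclideanSpace ℝ (Fin d)) (p q : Fin d) :
    gm w v p q = ∑ j, w j * (v j p * v j q) := by
  unfold gm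
  rw [Matrix.sum_apply]
  refine Finset.sum_congr rfl fun j _ => ?_
  rw [Matrix.smul_apply, Matrix.vecMulVec_apply, smul_eq_mul]

/-- the quadratic form of `gm` -/
theorem gm_quad {d n : ℕ} (w : Fin n → ℝ) (v : Fin n → EuclideanSpace ℝ (Fin d)) (x : Fin d → ℝ) :
    dotProduct x ((gm w v).mulVec x) = ∑ j, w j * ⟪v j, WithLp.toLp 2 x⟫ ^ 2 := by
  have h1 : ∀ j, ⟪v j, WithLp.toLp 2 x⟫ = ∑ p, v j p * x p := by
    intro j
    rw [PiLp.inner_apply]
    refine Finset.sum_congr rfl fun p _ => ?_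
    simp [mul_comm]
  simp only [dotProduct, Matrix.mulVec, gm_apply]
  have h2 : ∀ j, w j * ⟪v j, WithLp.toLp 2 x⟫ ^ 2
      = ∑ p, ∑ q, x p * (w j * (v j p * v j q) * x q) := by
    intro j
    rw [h1, sq, Finset.sum_mul_sum, Finset.mul_sum]
    refine Finset.sum_congr rfl fun p _ => ?_
    rw [Finset.mul_sum]
    refine Finset.sum_congr rfl fun q _ => ?_
    ring
  rw [Finset.sum_congr rfl fun j _ => h2 j]
  rw [Finset.sum_comm]
  refine Finset.sum_congr rfl fun p _ => ?_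
  rw [Finset.sum_comm, Finset.mul_sum]
  refine Finset.sum_congr rfl fun q _ => ?_
  rw [Finset.sum_mul, Finset.mul_sum]

/-- a spanning list exists -/
theorem exists_spanning {d : ℕ} {I : Type} [Fintype I]
    (a : I → EuclideanSpace ℝ (Fin d)) (b : I → ℝ) (R : ℝ)
    (hbdd : ∀ x : EuclideanSpace ℝ (Fin d), (∀ i, ⟪a i, x⟫ ≤ b i) → ‖x‖ ≤ R)
    (x₀ : EuclideanSpace ℝ (Fin d)) (hint : ∀ i, ⟪a i, x₀⟫ < b i) :
    ∃ (n : ℕ) (t : Fin n → I), 0 < (gm (fun _ => 1) (fun j => a (t j))).det := by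
  refine ⟨Fintype.card I, (Fintype.equivFin I).symm, ?_⟩
  refine Matrix.PosDef.det_pos ?_
  refine Matrix.PosDef.of_dotProduct_mulVec_pos ?_ ?_
  · ext p q
    rw [Matrix.conjTranspose_apply, gm_apply, gm_apply]
    simp only [star_trivial]
    refine Finset.sum_congr rfl fun j _ => ?_
    ring
  · intro x hx
    rw [star_trivial, gm_quad]
    have hnn : ∀ j ∈ (Finset.univ : Finset (Fin (Fintype.card I))),
        0 ≤ 1 * ⟪a ((Fintype.equivFin I).symm j), WithLp.toLp 2 x⟫ ^ 2 := by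
      intro j _
      positivity
    rcases (Finset.sum_nonneg hnn).lt_or_eq with h | h
    · exact h
    · exfalso
      have h1 := (Finset.sum_eq_zero_iff_of_nonneg hnn).1 h.symm
      have h2 : ∀ i, ⟪a i, WithLp.toLp 2 x⟫ = 0 := by
        intro i
        have h3 := h1 (Fintype.equivFin I i) (Finset.mem_univ _)
        rw [Equiv.symm_apply_apply, one_mul] at h3
        exact pow_eq_zero_iff (two_ne_zero) |>.1 h3
      have h4 : ∀ l : ℝ, ‖x₀ + l • (WithLp.toLp 2 x : EuclideanSpace ℝ (Fin d))‖ ≤ R := by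
        intro l
        apply hbdd
        intro i
        rw [inner_add_right, inner_smul_right, h2, mul_zero, add_zero]
        exact (hint i).le
      have hx' : (WithLp.toLp 2 x : EuclideanSpace ℝ (Fin d)) ≠ 0 := by
        intro h0
        apply hx
        have := congrArg (WithLp.ofLp) h0
        simpa using this
      have hpos : 0 < ‖(WithLp.toLp 2 x : EuclideanSpace ℝ (Fin d))‖ := norm_pos_iff.2 hx'
      have h5 := h4 ((R + ‖x₀‖ + 1) / ‖(WithLp.toLp 2 x : EuclideanSpace ℝ (Fin d))‖)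
      have hR : 0 ≤ R := (norm_nonneg x₀).trans (hbdd x₀ fun i => (hint i).le)
      have h6 : ‖((R + ‖x₀‖ + 1) / ‖(WithLp.toLp 2 x : EuclideanSpace ℝ (Fin d))‖) •
          (WithLp.toLp 2 x : EuclideanSpace ℝ (Fin d))‖ = R + ‖x₀‖ + 1 := by
        rw [norm_smul, Real.norm_of_nonneg (by positivity)]
        field_simp
      have h7 : ‖((R + ‖x₀‖ + 1) / ‖(WithLp.toLp 2 x : EuclideanSpace ℝ (Fin d))‖) •
          (WithLp.toLp 2 x : EuclideanSpace ℝ (Fin d))‖ ≤
          ‖x₀ + ((R + ‖x₀‖ + 1) / ‖(WithLp.toLp 2 x : EuclideanSpace ℝ (Fin d))‖) •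
          (WithLp.toLp 2 x : EuclideanSpace ℝ (Fin d))‖ + ‖x₀‖ := by
        have := norm_sub_le (x₀ + ((R + ‖x₀‖ + 1) /
          ‖(WithLp.toLp 2 x : EuclideanSpace ℝ (Fin d))‖) •
          (WithLp.toLp 2 x : EuclideanSpace ℝ (Fin d))) x₀
        rwa [add_sub_cancel_left] at this
      linarith

/-- bound for the logarithm of the determinant -/
theorem logdet_bound {d n : ℕ} (hn : 1 ≤ n) (w : Fin n → ℝ)
    (v : Fin n → EuclideanSpace ℝ (Fin d)) (c : ℝ) (hc : 1 ≤ c)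
    (h : ∀ j, |w j| * ‖v j‖ ^ 2 ≤ c) :
    Real.log (gm w v).det ≤ Real.log ((d.factorial : ℝ) * (n * c) ^ d) := by
  have hn' : (1 : ℝ) ≤ (n : ℝ) := by exact_mod_cast hn
  have hnc : (1 : ℝ) ≤ n * c := by nlinarith
  have hfac : (1 : ℝ) ≤ (d.factorial : ℝ) := by exact_mod_cast Nat.succ_le_of_lt (Nat.factorial_pos d)
  have hb : (1 : ℝ) ≤ (d.factorial : ℝ) * (n * c) ^ d := by
    have := one_le_pow₀ hnc (n := d)
    nlinarith
  have hentry : ∀ p q, AbsoluteValue.abs (gm w v p q) ≤ (n * c : ℝ) := by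
    intro p q
    rw [AbsoluteValue.abs_apply, gm_apply]
    refine (Finset.abs_sum_le_sum_abs _ _).trans ?_
    have : ∀ j ∈ (Finset.univ : Finset (Fin n)), |w j * (v j p * v j q)| ≤ c := by
      intro j _
      rw [abs_mul, abs_mul]
      have h1 : |v j p| ≤ ‖v j‖ := by
        simpa using PiLp.norm_apply_le (v j) p
      have h2 : |v j q| ≤ ‖v j‖ := by
        simpa using PiLp.norm_apply_le (v j) q
      have h3 : |v j p| * |v j q| ≤ ‖v j‖ ^ 2 := by
        rw [sq]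
        exact mul_le_mul h1 h2 (abs_nonneg _) (norm_nonneg _)
      exact (mul_le_mul_of_nonneg_left h3 (abs_nonneg _)).trans (h j)
    refine (Finset.sum_le_card_nsmul _ _ _ this).trans ?_
    rw [Finset.card_univ, Fintype.card_fin, nsmul_eq_mul]
  have hdet := Matrix.det_le hentry
  rw [Fintype.card_fin, nsmul_eq_mul, AbsoluteValue.abs_apply] at hdet
  rw [← Real.log_abs]
  by_cases h0 : (gm w v).det = 0
  · rw [h0, abs_zero, Real.log_zero]
    exact Real.log_nonneg hb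
  · exact Real.log_le_log (abs_pos.2 h0) hdet

theorem det_smul_id {d : ℕ} (ε : ℝ) :
    (ε • ContinuousLinearMap.id ℝ (EuclideanSpace ℝ (Fin d))).det = ε ^ d := by
  rw [ContinuousLinearMap.det]
  have : ((ε • ContinuousLinearMap.id ℝ (EuclideanSpace ℝ (Fin d)) :
      EuclideanSpace ℝ (Fin d) →L[ℝ] EuclideanSpace ℝ (Fin d)) :
      EuclideanSpace ℝ (Fin d) →ₗ[ℝ] EuclideanSpace ℝ (Fin d)) = ε • LinearMap.id := rfl
  rw [this, LinearMap.det_smul, LinearMap.det_id, mul_one, finrank_euclideanSpace_fin]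

/-- QN-2 (the best list). -/
theorem exists_best {d : ℕ} (hd : 0 < d) {I : Type} [Fintype I]
    (a : I → EuclideanSpace ℝ (Fin d)) (b : I → ℝ) (R : ℝ)
    (hbdd : ∀ x : EuclideanSpace ℝ (Fin d), (∀ i, ⟪a i, x⟫ ≤ b i) → ‖x‖ ≤ R)
    (x₀ : EuclideanSpace ℝ (Fin d)) (hint : ∀ i, ⟪a i, x₀⟫ < b i) (α : ℝ) (hα : 1 < α) :
    ∃ (n : ℕ) (t : Fin n → I) (o : EuclideanSpace ℝ (Fin d))
      (A : EuclideanSpace ℝ (Fin d) →L[ℝ] EuclideanSpace ℝ (Fin d)),
      0 < (gm (fun _ => 1) (fun j => a (t j))).det ∧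
      (∀ i, ⟪a i, o⟫ + ‖A (a i)‖ ≤ b i) ∧ (∀ i, ⟪a i, o⟫ < b i) ∧ 0 < A.det ∧
      (∀ (o' : EuclideanSpace ℝ (Fin d))
        (A' : EuclideanSpace ℝ (Fin d) →L[ℝ] EuclideanSpace ℝ (Fin d)),
        (∀ i, ⟪a i, o'⟫ + ‖A' (a i)‖ ≤ b i) → 0 < A'.det →
        Real.log (gm (fun j => ((b (t j) - ⟪a (t j), o⟫) ^ 2)⁻¹) (fun j => a (t j))).det -
            2 * Real.log A.det ≤
          Real.log (gm (fun j => ((b (t j) - ⟪a (t j), o'⟫) ^ 2)⁻¹) (fun j => a (t j))).det -
            2 * Real.log A'.det) ∧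
      (∀ (n' : ℕ) (t' : Fin n' → I), 0 < (gm (fun _ => 1) (fun j => a (t' j))).det →
        ∃ (o' : EuclideanSpace ℝ (Fin d))
          (A' : EuclideanSpace ℝ (Fin d) →L[ℝ] EuclideanSpace ℝ (Fin d)),
          (∀ i, ⟪a i, o'⟫ + ‖A' (a i)‖ ≤ b i) ∧ (∀ i, ⟪a i, o'⟫ < b i) ∧ 0 < A'.det ∧
          Real.log (gm (fun j => ((b (t' j) - ⟪a (t' j), o'⟫) ^ 2)⁻¹)
              (fun j => a (t' j))).det - 2 * Real.log A'.det - n' * Real.log α ≤
            Real.log (gm (fun j => ((b (t j) - ⟪a (t j), o⟫) ^ 2)⁻¹) (fun j => a (t j))).det -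
              2 * Real.log A.det - n * Real.log α) := by
  classical
  -- the functional
  set val : (n : ℕ) → (Fin n → I) → EuclideanSpace ℝ (Fin d) →
      (EuclideanSpace ℝ (Fin d) →L[ℝ] EuclideanSpace ℝ (Fin d)) → ℝ := fun n t o A =>
    Real.log (gm (fun j => ((b (t j) - ⟪a (t j), o⟫) ^ 2)⁻¹) (fun j => a (t j))).det -
      2 * Real.log A.det with hval
  -- minimisers
  have hmin : ∀ (n : ℕ) (t : Fin n → I), 0 < (gm (fun _ => 1) (fun j => a (t j))).det →
      ∃ p : EuclideanSpace ℝ (Fin d) ×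
        (EuclideanSpace ℝ (Fin d) →L[ℝ] EuclideanSpace ℝ (Fin d)),
        (∀ i, ⟪a i, p.1⟫ + ‖p.2 (a i)‖ ≤ b i) ∧ (∀ i, ⟪a i, p.1⟫ < b i) ∧ 0 < p.2.det ∧
        ∀ (o' : EuclideanSpace ℝ (Fin d))
          (A' : EuclideanSpace ℝ (Fin d) →L[ℝ] EuclideanSpace ℝ (Fin d)),
          (∀ i, ⟪a i, o'⟫ + ‖A' (a i)‖ ≤ b i) → 0 < A'.det →
            val n t p.1 p.2 ≤ val n t o' A' := by
    intro n t ht
    obtain ⟨o, A, h1, h2, h3, h4⟩ := St.exists_min a b R hbdd x₀ hint t ht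
    exact ⟨(o, A), h1, h2, h3, h4⟩
  choose! mp hmp1 hmp2 hmp3 hmp4 using hmin
  set h : (n : ℕ) → (Fin n → I) → ℝ := fun n t =>
    val n t (mp n t).1 (mp n t).2 - n * Real.log α with hh
  -- the starting point
  obtain ⟨ε, hε, hεi⟩ : ∃ ε : ℝ, 0 < ε ∧ ∀ i, ε * ‖a i‖ ≤ b i - ⟪a i, x₀⟫ := by
    have h1 : ∀ᶠ ε in 𝓝[>] (0 : ℝ), ∀ i, ε * ‖a i‖ ≤ b i - ⟪a i, x₀⟫ := by
      rw [Filter.eventually_all]
      intro i
      have h2 : Tendsto (fun ε : ℝ => ε * ‖a i‖) (𝓝 0) (𝓝 (0 * ‖a i‖)) :=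
        (continuous_id.mul continuous_const).tendsto 0
      rw [zero_mul] at h2
      have h3 := h2.eventually (gt_mem_nhds (sub_pos.2 (hint i)))
      filter_upwards [nhdsWithin_le_nhds h3] with ε h using le_of_lt h
    obtain ⟨ε, h2, h3⟩ := (h1.and self_mem_nhdsWithin).exists
    exact ⟨ε, h3, h2⟩
  have hst : ∀ i, ⟪a i, x₀⟫ +
      ‖(ε • ContinuousLinearMap.id ℝ (EuclideanSpace ℝ (Fin d))) (a i)‖ ≤ b i := by
    intro i
    have h1 : ‖ε • a i‖ = ε * ‖a i‖ := by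
      rw [norm_smul, Real.norm_of_nonneg hε.le]
    have h2 := hεi i
    simp only [smul_apply, ContinuousLinearMap.id_apply]
    rw [h1]
    linarith
  have hdetε : 0 < (ε • ContinuousLinearMap.id ℝ (EuclideanSpace ℝ (Fin d))).det := by
    rw [det_smul_id]; positivity
  -- the constant `c`
  set c : ℝ := 1 + ∑ i, ((b i - ⟪a i, x₀⟫) ^ 2)⁻¹ * ‖a i‖ ^ 2 with hc
  have hterm : ∀ i, 0 ≤ ((b i - ⟪a i, x₀⟫) ^ 2)⁻¹ * ‖a i‖ ^ 2 := fun i => by positivity
  have hc1 : 1 ≤ c := by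
    have := Finset.sum_nonneg fun i (_ : i ∈ Finset.univ) => hterm i
    linarith
  have hci : ∀ i, ((b i - ⟪a i, x₀⟫) ^ 2)⁻¹ * ‖a i‖ ^ 2 ≤ c := by
    intro i
    have := Finset.single_le_sum (fun i (_ : i ∈ Finset.univ) => hterm i) (Finset.mem_univ i)
    linarith
  -- a spanning list
  obtain ⟨n₀, t₀, ht₀⟩ := exists_spanning a b R hbdd x₀ hint
  -- large lists are bad
  obtain ⟨N, hN⟩ : ∃ N : ℕ, ∀ n, N ≤ n →
      (d.factorial : ℝ) * c ^ d / ε ^ (2 * d) * ((n : ℝ) ^ d / α ^ n) < Real.exp (h n₀ t₀) := by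
    have h1 := (tendsto_pow_const_div_const_pow_of_one_lt d hα).const_mul
      ((d.factorial : ℝ) * c ^ d / ε ^ (2 * d))
    rw [mul_zero] at h1
    have h2 := h1.eventually (gt_mem_nhds (Real.exp_pos (h n₀ t₀)))
    exact eventually_atTop.1 h2
  have hpos1 : ∀ (n : ℕ) (t : Fin n → I), 0 < (gm (fun _ => 1) (fun j => a (t j))).det →
      1 ≤ n := by
    intro n t ht
    by_contra hcon
    have hn0 : n = 0 := by omega
    subst hn0
    have hz : gm (fun _ => 1) (fun j => a (t j)) = 0 := by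
      unfold gm; simp
    have : Nonempty (Fin d) := Fin.pos_iff_nonempty.1 hd
    rw [hz, Matrix.det_zero] at ht
    exact lt_irrefl _ ht
  have hlarge : ∀ (n : ℕ) (t : Fin n → I), N ≤ n →
      0 < (gm (fun _ => 1) (fun j => a (t j))).det → h n t ≤ h n₀ t₀ := by
    intro n t hn ht
    have hn1 := hpos1 n t ht
    have h1 := hmp4 n t ht x₀ _ hst hdetε
    have h2 : val n t x₀ (ε • ContinuousLinearMap.id ℝ (EuclideanSpace ℝ (Fin d))) ≤
        Real.log ((d.factorial : ℝ) * (n * c) ^ d) - 2 * (d * Real.log ε) := by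
      rw [hval]
      have h3 := logdet_bound (d := d) hn1 (fun j => ((b (t j) - ⟪a (t j), x₀⟫) ^ 2)⁻¹)
        (fun j => a (t j)) c hc1 (fun j => by
          rw [abs_of_nonneg (by positivity)]
          exact hci (t j))
      simp only
      rw [det_smul_id, Real.log_pow]
      linarith
    have h4 := hN n hn
    have hnpos : (0 : ℝ) < n := by exact_mod_cast hn1
    have hcpos : 0 < c := by linarith
    have hαpos : 0 < α := by linarith
    have hfac : (0 : ℝ) < (d.factorial : ℝ) := by exact_mod_cast Nat.factorial_pos d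
    have h5 : Real.log ((d.factorial : ℝ) * c ^ d / ε ^ (2 * d) * ((n : ℝ) ^ d / α ^ n))
        < h n₀ t₀ := by
      rw [← Real.log_exp (h n₀ t₀)]
      exact Real.log_lt_log (by positivity) h4
    have h6 : Real.log ((d.factorial : ℝ) * c ^ d / ε ^ (2 * d) * ((n : ℝ) ^ d / α ^ n))
        = Real.log ((d.factorial : ℝ) * (n * c) ^ d) - 2 * (d * Real.log ε)
          - n * Real.log α := by
      rw [Real.log_mul (by positivity) (by positivity), Real.log_div (by positivity) (by positivity),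
        Real.log_div (by positivity) (by positivity), Real.log_mul (by positivity) (by positivity),
        Real.log_mul (by positivity) (by positivity), Real.log_pow, Real.log_pow, Real.log_pow,
        Real.log_pow, Real.log_pow, Real.log_mul (by positivity) (by positivity)]
      push_cast
      ring
    rw [hh]
    simp only
    rw [h6] at h5
    linarith
  -- the best list of length at most `max n₀ N`
  set S : Finset (Σ n : Fin (max n₀ N + 1), (Fin n → I)) :=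
    Finset.univ.filter fun s => 0 < (gm (fun _ => 1) (fun j => a (s.2 j))).det with hS
  have hmem : ∀ (n : ℕ) (t : Fin n → I) (hn : n < max n₀ N + 1),
      0 < (gm (fun _ => 1) (fun j => a (t j))).det →
      (⟨⟨n, hn⟩, t⟩ : Σ n : Fin (max n₀ N + 1), (Fin n → I)) ∈ S := by
    intro n t hn ht
    rw [hS, Finset.mem_filter]
    exact ⟨Finset.mem_univ _, ht⟩
  have hne : S.Nonempty :=
    ⟨_, hmem n₀ t₀ (Nat.lt_succ_of_le (le_max_left _ _)) ht₀⟩
  obtain ⟨s, hs, hsmax⟩ := Finset.exists_max_image S (fun s => h s.1 s.2) hne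
  have hsdet : 0 < (gm (fun _ => 1) (fun j => a (s.2 j))).det := by
    rw [hS, Finset.mem_filter] at hs
    exact hs.2
  refine ⟨s.1, s.2, (mp s.1 s.2).1, (mp s.1 s.2).2, hsdet, hmp1 _ _ hsdet, hmp2 _ _ hsdet,
    hmp3 _ _ hsdet, hmp4 _ _ hsdet, ?_⟩
  intro n' t' ht'
  refine ⟨(mp n' t').1, (mp n' t').2, hmp1 _ _ ht', hmp2 _ _ ht', hmp3 _ _ ht', ?_⟩
  have hfin : h n' t' ≤ h s.1 s.2 := by
    by_cases hn : n' < max n₀ N + 1
    · exact hsmax _ (hmem n' t' hn ht')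
    · have h1 : N ≤ n' := by
        have := le_max_right n₀ N
        omega
      exact (hlarge n' t' h1 ht').trans
        (hsmax _ (hmem n₀ t₀ (Nat.lt_succ_of_le (le_max_left _ _)) ht₀))
  exact hfin

end Pool.Agent.Helper51.QN
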